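import Pool.Agent.K1H73.SQB.Stm
import Pool.Agent.Y61.SQ.AVG

/-!
# Project SQB (helper73), piece BOX: the average of the singular series over the boxes
-/

set_option autoImplicit false

namespace Pool.Agent.K1H65.SQB

open Finset Pool.Agent.Y862.SQ Pool.Agent.K1H73.SQB

theorem prod_diff {ι : Type} [DecidableEq ι] (s : Finset ι) (b c : ι → ℝ) (B e : ℝ) (hB : 1 ≤ B)
    (he : 0 ≤ e) (hb : ∀ i ∈ s, |b i| ≤ B) (hc : ∀ i ∈ s, |c i| ≤ B)
    (h : ∀ i ∈ s, |b i - c i| ≤ e) : |∏ i ∈ s, b i - ∏ i ∈ s, c i| ≤ s.card * B ^ s.card * e := by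
  induction s using Finset.induction_on with
  | empty => simp
  | insert a s ha ih =>
    have ih' := ih (fun i hi => hb i (mem_insert_of_mem hi)) (fun i hi => hc i (mem_insert_of_mem hi))
      (fun i hi => h i (mem_insert_of_mem hi))
    rw [prod_insert ha, prod_insert ha, card_insert_of_notMem ha]
    have h1 : b a * ∏ i ∈ s, b i - c a * ∏ i ∈ s, c i = b a * (∏ i ∈ s, b i - ∏ i ∈ s, c i) +
        (b a - c a) * ∏ i ∈ s, c i := by ring
    have h2 : |∏ i ∈ s, c i| ≤ B ^ s.card := by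
      rw [Finset.abs_prod]
      refine (Finset.prod_le_prod (fun i _ => abs_nonneg (c i))
        (fun i hi => hc i (mem_insert_of_mem hi))).trans ?_
      rw [prod_const]
    rw [h1]
    refine (abs_add_le _ _).trans ?_
    rw [abs_mul, abs_mul]
    have hB0 : 0 ≤ B := by linarith
    have h3 : |b a| * |∏ i ∈ s, b i - ∏ i ∈ s, c i| ≤ B * (s.card * B ^ s.card * e) :=
      mul_le_mul (hb a (mem_insert_self a s)) ih' (abs_nonneg _) hB0
    have h4 : |b a - c a| * |∏ i ∈ s, c i| ≤ e * B ^ s.card :=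
      mul_le_mul (h a (mem_insert_self a s)) h2 (abs_nonneg _) he
    have h5 : e * B ^ s.card ≤ e * B ^ (s.card + 1) :=
      mul_le_mul_of_nonneg_left (pow_le_pow_right₀ hB (Nat.le_succ _)) he
    push_cast
    calc _ ≤ B * (s.card * B ^ s.card * e) + e * B ^ (s.card + 1) := by linarith
      _ = ((s.card : ℝ) + 1) * B ^ (s.card + 1) * e := by ring

theorem comb {k : ℕ} (κ N : Fin k → ℕ) (mu : Fin k → ℝ) (v X e : ℝ) (hX : 0 ≤ X) (he : 0 ≤ e)
    (he1 : e ≤ 1) (h0 : ∀ i, 0 ≤ mu i) (hmu : ∀ i, mu i ≤ X)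
    (hb : ∀ i, ∀ j < κ i, |v * ((N i - j : ℕ) : ℝ) - mu i| ≤ e) :
    |v ^ (∑ i, κ i) * ∏ i, ((N i).choose (κ i) : ℝ) - mt κ mu| ≤
      ((∑ i, κ i : ℕ) : ℝ) * (X + 1) ^ (∑ i, κ i) * e := by
  classical
  set Z : Finset (Σ _ : Fin k, ℕ) := univ.sigma (fun i => range (κ i)) with hZ
  have hcard : Z.card = ∑ i, κ i := by
    rw [hZ, card_sigma]
    simp
  set P : ℝ := ∏ i, ((κ i).factorial : ℝ) with hP
  have hP1 : 1 ≤ P := by
    rw [hP]
    have : ((1 : ℕ) : ℝ) ≤ ((∏ i, (κ i).factorial : ℕ) : ℝ) := by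
      rw [Nat.cast_le]
      exact Nat.one_le_iff_ne_zero.mpr (prod_ne_zero_iff.mpr fun i _ => Nat.factorial_ne_zero _)
    push_cast at this
    exact this
  have hP0 : P ≠ 0 := by linarith
  have e1 : v ^ (∑ i, κ i) * ∏ i, ((N i).choose (κ i) : ℝ) =
      (∏ z ∈ Z, v * ((N z.1 - z.2 : ℕ) : ℝ)) / P := by
    rw [eq_div_iff hP0, hZ, prod_sigma, hP, ← prod_pow_eq_pow_sum, ← prod_mul_distrib,
      ← prod_mul_distrib]
    refine prod_congr rfl fun i _ => ?_
    rw [prod_mul_distrib, prod_const, card_range]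
    have h1 : (((N i).descFactorial (κ i) : ℕ) : ℝ) = ((κ i).factorial : ℝ) * ((N i).choose (κ i) : ℝ) := by
      rw [Nat.descFactorial_eq_factorial_mul_choose]
      push_cast
      ring
    rw [Nat.descFactorial_eq_prod_range] at h1
    push_cast at h1
    have h2 : (∏ j ∈ range (κ i), ((N i - j : ℕ) : ℝ)) = ((κ i).factorial : ℝ) * ((N i).choose (κ i) : ℝ) := h1
    rw [h2]
    ring
  have e2 : mt κ mu = (∏ z ∈ Z, mu z.1) / P := by
    rw [hZ, prod_sigma, hP]
    unfold Pool.Agent.K1H73.SQB.mt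
    rw [prod_div_distrib]
    congr 1
    refine prod_congr rfl fun i _ => ?_
    simp
  rw [e1, e2, ← sub_div, abs_div, abs_of_pos (by linarith : 0 < P)]
  refine (div_le_self (abs_nonneg _) hP1).trans ?_
  have := prod_diff Z (fun z => v * ((N z.1 - z.2 : ℕ) : ℝ)) (fun z => mu z.1) (X + 1) e
    (by linarith) he ?_ ?_ ?_
  · rw [hcard] at this
    exact this
  · intro z hz
    rw [hZ, mem_sigma, mem_range] at hz
    have h1 := abs_le.mp (hb z.1 z.2 hz.2)
    have h2 := h0 z.1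
    have h3 := hmu z.1
    rw [abs_le]
    constructor <;> linarith
  · intro z _
    have h2 := h0 z.1
    have h3 := hmu z.1
    rw [abs_le]
    constructor <;> linarith
  · intro z hz
    rw [hZ, mem_sigma, mem_range] at hz
    exact hb z.1 z.2 hz.2

theorem Nb_den (h1 : S_DEN) (q a w S U n : ℕ) (hq : Squarefree q) (ha : a.Coprime q) (hw : q ≤ w) :
    |(Nb q a w S U n : ℝ) - ((U - S : ℕ) : ℝ) * V1 w / (Nat.totient q : ℝ)| ≤
      Pool.Agent.Y681.SQ.Mw w := by
  classical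
  have h := h1 q a w (n ^ 2 + S) (U - S) hq ha hw
  have hc : Nb q a w S U n = ((Ioc (n ^ 2 + S) (n ^ 2 + S + (U - S))).filter
      (fun m => ∀ p ∈ pr w, ¬ p ∣ m ∧ (p ∣ q → m % p = a % p))).card := by
    unfold Nb
    refine card_bij (fun h _ => n ^ 2 + h) ?_ ?_ ?_
    · intro h hh
      rw [mem_filter, mem_Ioc] at hh ⊢
      exact ⟨⟨by omega, by omega⟩, hh.2⟩
    · intro x _ y _ hxy
      omega
    · intro m hm
      rw [mem_filter, mem_Ioc] at hm
      refine ⟨m - n ^ 2, ?_, by omega⟩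
      rw [mem_filter, mem_Ioc]
      have e : n ^ 2 + (m - n ^ 2) = m := by omega
      refine ⟨⟨by omega, by omega⟩, ?_⟩
      rw [e]
      exact hm.2
  rw [hc]
  convert h using 6

theorem bx_facts {k : ℕ} {κ S U : Fin k → ℕ} {G : Fin k → Finset ℕ} (hG : G ∈ bx κ S U) :
    ∀ i, G i ⊆ Ioc (S i) (U i) ∧ (G i).card = κ i := by
  intro i
  unfold bx at hG
  rw [Fintype.mem_piFinset] at hG
  exact mem_powersetCard.mp (hG i)

theorem un_card {k : ℕ} {κ S U : Fin k → ℕ} {G : Fin k → Finset ℕ} (hG : G ∈ bx κ S U)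
    (hd : ∀ i j, i ≠ j → Disjoint (G i) (G j)) : (un G).card = ∑ i, κ i := by
  unfold un
  rw [card_biUnion (fun i _ j _ hij => hd i j hij)]
  exact sum_congr rfl fun i _ => (bx_facts hG i).2

/-- bounds for one family -/
theorem one (h4 : S_SPL) (h6 : S_TAIL) {k q K w y : ℕ} (a : Fin k → ℕ) (G : Fin k → Finset ℕ)
    (δ : ℝ) (hsq : Squarefree q) (hq0 : 0 < q) (hqw : q ≤ w) (hwy : w ≤ y) (hK : (un G).card = K)
    (hwK : 4 * K + 2 ≤ w) (hδ : 4 * (K : ℝ) ^ 2 / w ≤ δ) (hδ1 : δ ≤ 1) :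
    |DG q a G y - V1t w y ^ K * DG q a G w| ≤ V1t w y ^ K * (|∏ h ∈ un G, Ff w y h - 1| +
      (∏ h ∈ un G, Ff w y h) * ∑ z ∈ prs (un G),
        (Dd ((1 + 4 * K) ^ (K ^ 2) - 1) w (z.2 - z.1) - 1) + δ * DG q a G w) := by
  obtain ⟨s1, s2, s3, -⟩ := h4 k q w y a G hsq hq0 hqw hwy
  obtain ⟨t1, t2⟩ := h6 (un G) w y (by rw [hK]; exact hwK)
  rw [hK] at t1 t2
  set A := V1t w y ^ K with hA
  set P := ∏ h ∈ un G, Ff w y h with hP
  set D := ∑ z ∈ prs (un G), (Dd ((1 + 4 * K) ^ (K ^ 2) - 1) w (z.2 - z.1) - 1) with hD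
  set g := DG q a G w with hg
  have hA0 : 0 ≤ A := pow_nonneg (Pool.Agent.Y61.SQ.V1t_pos w y).le K
  have hP0 : 0 ≤ P := prod_nonneg fun h _ => Pool.Agent.Y61.SQ.Ff_nonneg w y h
  have hD0 : 0 ≤ D := sum_nonneg fun z _ => Pool.Agent.Y61.SQ.Dd_ge _ _ _
  set ρ := 4 * (K : ℝ) ^ 2 / w with hρ
  have hρ0 : 0 ≤ ρ := by positivity
  have l1 := Pool.Agent.Y61.SQ.low_aux (P := P) s2 s3
  have u1 := Pool.Agent.Y61.SQ.up_aux (P := P) s2 s3
  have hE := abs_nonneg (P - 1)
  have low : A * (g - |P - 1| - δ * g) ≤ DG q a G y := by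
    rw [s1]
    have x1 : g * (A * P * (1 - ρ)) ≤ g * VT (un G) w y := mul_le_mul_of_nonneg_left t1 s2
    refine le_trans ?_ x1
    have x2 : g * (A * P * (1 - ρ)) = A * ((g * P) * (1 - ρ)) := by ring
    rw [x2]
    refine mul_le_mul_of_nonneg_left ?_ hA0
    have x3 : (g - |P - 1|) * (1 - ρ) ≤ g * P * (1 - ρ) :=
      mul_le_mul_of_nonneg_right l1 (by linarith)
    refine le_trans ?_ x3
    have x4 : 0 ≤ |P - 1| * ρ := mul_nonneg hE hρ0
    have x5 : g * ρ ≤ g * δ := mul_le_mul_of_nonneg_left hδ s2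
    nlinarith
  have up : DG q a G y ≤ A * (g + |P - 1| + P * D) := by
    rw [s1]
    have x1 : g * VT (un G) w y ≤ g * (A * P * (1 + D)) := mul_le_mul_of_nonneg_left t2 s2
    refine x1.trans ?_
    have x2 : g * (A * P * (1 + D)) = A * (g * P + g * (P * D)) := by ring
    rw [x2]
    refine mul_le_mul_of_nonneg_left ?_ hA0
    have x3 : g * (P * D) ≤ P * D := mul_le_of_le_one_left (mul_nonneg hP0 hD0) s3
    linarith
  have hδ0 : 0 ≤ δ * g := mul_nonneg (hρ0.trans hδ) s2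
  have hPD : 0 ≤ P * D := mul_nonneg hP0 hD0
  rw [abs_le]
  constructor
  · have x1 : A * (g - |P - 1| - δ * g) = A * g - A * (|P - 1| + δ * g) := by ring
    have x2 : A * (|P - 1| + P * D + δ * g) = A * (|P - 1| + δ * g) + A * (P * D) := by ring
    have x3 : 0 ≤ A * (P * D) := mul_nonneg hA0 hPD
    linarith
  · have x1 : A * (g + |P - 1| + P * D) = A * g + A * (|P - 1| + P * D) := by ring
    have x2 : A * (|P - 1| + P * D + δ * g) = A * (|P - 1| + P * D) + A * (δ * g) := by ring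
    have x3 : 0 ≤ A * (δ * g) := mul_nonneg hA0 hδ0
    linarith

theorem t_BOX (h1 : S_DEN) (h2 : S_EXM) (h3 : S_ERR) (h4 : S_SPL) (h5 : S_MUL) (h6 : S_TAIL) :
    S_BOX := by
  classical
  intro k q a κ x0 η hsq hcop hη
  have hq0 : 0 < q := Nat.pos_of_ne_zero hsq.ne_zero
  obtain ⟨K, hK⟩ : ∃ K, K = ∑ i, κ i := ⟨_, rfl⟩
  rcases Nat.eq_zero_or_pos K with hK0 | hK1
  · refine ⟨0, 0, ?_⟩
    intro y T _ _ _ S U _ _
    have hκ : ∀ i, κ i = 0 := by
      intro i
      exact (Finset.sum_eq_zero_iff.mp (hK.symm.trans hK0)) i (mem_univ i)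
    have hbx : bx κ S U = {fun _ => ∅} := by
      unfold bx
      ext G
      rw [Fintype.mem_piFinset, mem_singleton]
      simp only [hκ, powersetCard_zero, mem_singleton]
      exact ⟨fun h => funext h, fun h i => by rw [h]⟩
    have hDG : DG q a (fun _ : Fin k => (∅ : Finset ℕ)) y = 1 := by
      unfold DG
      apply prod_eq_one
      intro p _
      unfold rG Qm
      simp
    have hmt : Pool.Agent.K1H73.SQB.mt κ (fun i => mu q y (S i) (U i)) = 1 := by
      unfold Pool.Agent.K1H73.SQB.mt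
      simp [hκ]
    rw [hbx, sum_singleton, hDG, hmt]
    simpa using hη.le
  · obtain ⟨X, hX⟩ : ∃ X : ℝ, X = max x0 0 := ⟨_, rfl⟩
    have hX0 : 0 ≤ X := by rw [hX]; exact le_max_right _ _
    obtain ⟨D, hD⟩ : ∃ D : ℝ, D = 2 ^ (k * K + 1) * X ^ K + X ^ K + 2 := ⟨_, rfl⟩
    have hD0 : 0 < D := by rw [hD]; positivity
    obtain ⟨δ, hδ⟩ : ∃ δ : ℝ, δ = min 1 (η / (4 * D)) := ⟨_, rfl⟩
    have hδ0 : 0 < δ := by rw [hδ]; exact lt_min one_pos (by positivity)
    have hδ1 : δ ≤ 1 := by rw [hδ]; exact min_le_left _ _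
    have hδD : δ * D ≤ η / 4 := by
      have : δ ≤ η / (4 * D) := by rw [hδ]; exact min_le_right _ _
      calc δ * D ≤ η / (4 * D) * D := mul_le_mul_of_nonneg_right this hD0.le
        _ = η / 4 := by field_simp
    obtain ⟨w, T1, hqw, hwK, hδw, herr⟩ := h3 K q δ hK1 hδ0
    obtain ⟨ε, hε⟩ : ∃ ε : ℝ, ε = min 1 (η / 4) := ⟨_, rfl⟩
    have hε0 : 0 < ε := by rw [hε]; exact lt_min one_pos (by positivity)
    have hε1 : ε ≤ 1 := by rw [hε]; exact min_le_left _ _
    have hε2 : ε ≤ η / 4 := by rw [hε]; exact min_le_right _ _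
    obtain ⟨Cc, hCc⟩ : ∃ Cc : ℝ, Cc = (K : ℝ) * (X + 1) ^ K := ⟨_, rfl⟩
    have hKR : (0 : ℝ) < K := by exact_mod_cast hK1
    have hCc0 : 0 < Cc := by rw [hCc]; positivity
    obtain ⟨e, he⟩ : ∃ e : ℝ, e = min 1 (ε / Cc) := ⟨_, rfl⟩
    have he0 : 0 < e := by rw [he]; exact lt_min one_pos (by positivity)
    have he1 : e ≤ 1 := by rw [he]; exact min_le_left _ _
    have heC : Cc * e ≤ ε := by
      have : e ≤ ε / Cc := by rw [he]; exact min_le_right _ _
      calc Cc * e ≤ Cc * (ε / Cc) := mul_le_mul_of_nonneg_left this hCc0.le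
        _ = ε := by field_simp
    have hVw := Pool.Agent.Y61.SQ.V1_pos w
    have hMw : (0 : ℝ) < (Pool.Agent.Y681.SQ.Mw w : ℝ) := by
      exact_mod_cast Pool.Agent.Y681.SQ.Mw_pos w
    obtain ⟨T2, hT2⟩ := exists_nat_ge (X * ((Pool.Agent.Y681.SQ.Mw w : ℝ) + K) / (V1 w * e))
    refine ⟨w, T1 + T2 + 1, ?_⟩
    intro y T hy hT hTV S U hU hDj
    have hTpos : (0 : ℝ) < T := by exact_mod_cast (by omega : 0 < T)
    have hVy := Pool.Agent.Y61.SQ.V1_pos y
    have hTX : T * V1 y ≤ X := hTV.trans (by rw [hX]; exact le_max_left _ _)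
    obtain ⟨v, hv⟩ : ∃ v : ℝ, v = V1t w y := ⟨_, rfl⟩
    have hv0 : 0 < v := by rw [hv]; exact Pool.Agent.Y61.SQ.V1t_pos w y
    have hsplit : V1 y = V1 w * v := by rw [hv]; exact Pool.Agent.Y61.SQ.V1_split hy
    have hve : v * ((Pool.Agent.Y681.SQ.Mw w : ℝ) + K) ≤ e := by
      have e1 : X * ((Pool.Agent.Y681.SQ.Mw w : ℝ) + K) ≤ T * (V1 w * e) := by
        rw [div_le_iff₀ (by positivity)] at hT2
        refine hT2.trans (mul_le_mul_of_nonneg_right ?_ (by positivity))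
        exact_mod_cast (by omega : T2 ≤ T)
      have e2 : (T * V1 w) * (v * ((Pool.Agent.Y681.SQ.Mw w : ℝ) + K)) ≤ (T * V1 w) * e := by
        calc (T * V1 w) * (v * ((Pool.Agent.Y681.SQ.Mw w : ℝ) + K))
            = (T * V1 y) * ((Pool.Agent.Y681.SQ.Mw w : ℝ) + K) := by rw [hsplit]; ring
          _ ≤ X * ((Pool.Agent.Y681.SQ.Mw w : ℝ) + K) :=
              mul_le_mul_of_nonneg_right hTX (by positivity)
          _ ≤ _ := by linarith
      exact le_of_mul_le_mul_left e2 (by positivity)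
    have hφ1 : (1 : ℝ) ≤ (Nat.totient q : ℝ) := by
      exact_mod_cast Nat.totient_pos.mpr hq0
    have hmu0 : ∀ i, 0 ≤ mu q y (S i) (U i) := fun i => by
      unfold mu
      positivity
    have hmuX : ∀ i, mu q y (S i) (U i) ≤ X := fun i => by
      unfold mu
      have e1 : ((U i - S i : ℕ) : ℝ) ≤ T := by
        have := hU i
        exact_mod_cast (by omega : U i - S i ≤ T)
      calc ((U i - S i : ℕ) : ℝ) * V1 y / (Nat.totient q : ℝ) ≤ ((U i - S i : ℕ) : ℝ) * V1 y :=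
            div_le_self (by positivity) hφ1
        _ ≤ T * V1 y := mul_le_mul_of_nonneg_right e1 hVy.le
        _ ≤ X := hTX
    obtain ⟨m, hm⟩ : ∃ m : ℝ, m = Pool.Agent.K1H73.SQB.mt κ (fun i => mu q y (S i) (U i)) :=
      ⟨_, rfl⟩
    have hmX : m ≤ X ^ K := by
      rw [hm, hK, ← prod_pow_eq_pow_sum]
      unfold Pool.Agent.K1H73.SQB.mt
      refine prod_le_prod (fun i _ => ?_) fun i _ => ?_
      · have := hmu0 i
        positivity
      · have h7 : (1 : ℝ) ≤ ((κ i).factorial : ℝ) := by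
          exact_mod_cast Nat.one_le_iff_ne_zero.mpr (Nat.factorial_ne_zero _)
        have h8 := hmu0 i
        exact (div_le_self (by positivity) h7).trans (pow_le_pow_left₀ h8 (hmuX i) _)
    obtain ⟨Sg, hSg⟩ : ∃ Sg : ℝ, Sg = ∑ G ∈ bx κ S U, DG q a G w := ⟨_, rfl⟩
    -- the main term
    have hA : |v ^ K * Sg - m| ≤ ε := by
      have x1 := h2 k q w a κ S U
      rw [← hSg] at x1
      have x2 : ∀ n : ℕ, |v ^ K * ∏ i, ((Nb q (a i) w (S i) (U i) n).choose (κ i) : ℝ) - m| ≤ ε := by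
        intro n
        have x3 := comb κ (fun i => Nb q (a i) w (S i) (U i) n) (fun i => mu q y (S i) (U i)) v X e
          hX0 he0.le he1 hmu0 hmuX ?_
        · rw [← hK, ← hm, ← hCc] at x3
          exact x3.trans heC
        · intro i j hj
          have hjK : j ≤ K := by
            have : κ i ≤ ∑ i, κ i := single_le_sum (fun _ _ => Nat.zero_le _) (mem_univ i)
            omega
          have hjR : (j : ℝ) ≤ K := by exact_mod_cast hjK
          have y1 := abs_le.mp (Nb_den h1 q (a i) w (S i) (U i) n hsq (hcop i) hqw)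
          obtain ⟨N, hN⟩ : ∃ N, N = Nb q (a i) w (S i) (U i) n := ⟨_, rfl⟩
          rw [← hN] at y1 ⊢
          have y2 : mu q y (S i) (U i) = v * (((U i - S i : ℕ) : ℝ) * V1 w / (Nat.totient q : ℝ)) := by
            unfold mu
            rw [hsplit]
            ring
          have y3 := hmu0 i
          rw [y2] at y3 ⊢
          obtain ⟨z, hz⟩ : ∃ z : ℝ, z = ((U i - S i : ℕ) : ℝ) * V1 w / (Nat.totient q : ℝ) := ⟨_, rfl⟩
          rw [← hz] at y1 y3 ⊢
          have y4 : 0 ≤ z := by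
            by_contra hneg
            push Not at hneg
            have := mul_neg_of_pos_of_neg hv0 hneg
            linarith
          have y5 : |((N - j : ℕ) : ℝ) - z| ≤ (Pool.Agent.Y681.SQ.Mw w : ℝ) + K := by
            rw [abs_le]
            rcases le_or_gt j N with hjN | hjN
            · rw [Nat.cast_sub hjN]
              have : (0 : ℝ) ≤ j := Nat.cast_nonneg j
              constructor <;> linarith [y1.1, y1.2]
            · have : N - j = 0 := by omega
              rw [this, Nat.cast_zero]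
              have h9 : (N : ℝ) ≤ j := by exact_mod_cast hjN.le
              constructor <;> linarith [y1.1, y1.2]
          have y6 : v * ((N - j : ℕ) : ℝ) - v * z = v * (((N - j : ℕ) : ℝ) - z) := by ring
          rw [y6, abs_mul, abs_of_pos hv0]
          exact (mul_le_mul_of_nonneg_left y5 hv0.le).trans hve
      have x4 : (Pool.Agent.Y681.SQ.Mw w : ℝ) * (v ^ K * Sg - m) =
          ∑ n ∈ range (Pool.Agent.Y681.SQ.Mw w),
            (v ^ K * ∏ i, ((Nb q (a i) w (S i) (U i) n).choose (κ i) : ℝ) - m) := by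
        rw [sum_sub_distrib, ← mul_sum, ← x1, sum_const, card_range, nsmul_eq_mul]
        ring
      have x5 : (Pool.Agent.Y681.SQ.Mw w : ℝ) * |v ^ K * Sg - m| ≤
          (Pool.Agent.Y681.SQ.Mw w : ℝ) * ε := by
        calc (Pool.Agent.Y681.SQ.Mw w : ℝ) * |v ^ K * Sg - m|
            = |(Pool.Agent.Y681.SQ.Mw w : ℝ) * (v ^ K * Sg - m)| := by
              rw [abs_mul, abs_of_pos hMw]
          _ ≤ ∑ n ∈ range (Pool.Agent.Y681.SQ.Mw w),
            |v ^ K * ∏ i, ((Nb q (a i) w (S i) (U i) n).choose (κ i) : ℝ) - m| := by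
              rw [x4]
              exact abs_sum_le_sum_abs _ _
          _ ≤ ∑ n ∈ range (Pool.Agent.Y681.SQ.Mw w), ε := sum_le_sum fun n _ => x2 n
          _ = _ := by rw [sum_const, card_range, nsmul_eq_mul]
      exact le_of_mul_le_mul_left x5 hMw
    -- the error
    obtain ⟨f, hf⟩ : ∃ f : Finset ℕ → ℝ, f = fun H => |∏ h ∈ H, Ff w y h - 1| +
      (∏ h ∈ H, Ff w y h) * ∑ z ∈ prs H, (Dd ((1 + 4 * K) ^ (K ^ 2) - 1) w (z.2 - z.1) - 1) :=
      ⟨_, rfl⟩
    have hf0 : ∀ H, 0 ≤ f H := by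
      intro H
      rw [hf]
      exact add_nonneg (abs_nonneg _) (mul_nonneg (prod_nonneg fun h _ => Pool.Agent.Y61.SQ.Ff_nonneg w y h)
        (sum_nonneg fun z _ => Pool.Agent.Y61.SQ.Dd_ge _ _ _))
    have hfs : ∑ H ∈ powersetCard K (Icc 1 T), f H ≤ 2 * (δ * (T * V1 w) ^ K) := by
      obtain ⟨z1, z2⟩ := herr T (by omega) y hy
      rw [hf, sum_add_distrib]
      linarith
    have hmul := h5 k T κ S U f hf0 hU
    rw [← hK] at hmul
    have hB : |∑ G ∈ bx κ S U, DG q a G y - v ^ K * Sg| ≤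
        2 ^ (k * K + 1) * δ * X ^ K + δ * (v ^ K * Sg) := by
      have z0 : ∀ G ∈ bx κ S U, 0 ≤ DG q a G w := fun G _ => (h4 k q w y a G hsq hq0 hqw hy).2.1
      have z1 : ∀ G ∈ bx κ S U, |DG q a G y - v ^ K * DG q a G w| ≤
          (if (∀ i j, i ≠ j → Disjoint (G i) (G j)) then v ^ K * f (un G) else 0) +
            δ * (v ^ K * DG q a G w) := by
        intro G hG
        split_ifs with hdis
        · have z2 := one h4 h6 a G δ hsq hq0 hqw hy (K := K) ((un_card hG hdis).trans hK.symm) hwK hδw hδ1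
          rw [← hv] at z2
          refine z2.trans (le_of_eq ?_)
          rw [hf]
          ring
        · push Not at hdis
          obtain ⟨i, j, hij, hnd⟩ := hdis
          obtain ⟨s1, s2, s3, s4⟩ := h4 k q w y a G hsq hq0 hqw hy
          have z3 : a i % q ≠ a j % q := by
            rcases hDj i j hij with h | h
            · exact h
            · exact absurd (disjoint_of_subset_left (bx_facts hG i).1
                (disjoint_of_subset_right (bx_facts hG j).1 h)) hnd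
          have z4 := s4 i j z3 hnd
          rw [s1, z4]
          simp
      have z5 : |∑ G ∈ bx κ S U, DG q a G y - v ^ K * Sg| ≤
          ∑ G ∈ bx κ S U, |DG q a G y - v ^ K * DG q a G w| := by
        rw [hSg, mul_sum, ← sum_sub_distrib]
        exact abs_sum_le_sum_abs _ _
      refine z5.trans ((sum_le_sum z1).trans ?_)
      rw [sum_add_distrib, ← mul_sum, ← mul_sum, ← hSg, ← sum_filter, ← mul_sum]
      refine add_le_add ?_ le_rfl
      calc v ^ K * ∑ G ∈ (bx κ S U).filter (fun G => ∀ i j, i ≠ j → Disjoint (G i) (G j)), f (un G)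
          ≤ v ^ K * (2 ^ (k * K) * (2 * (δ * (T * V1 w) ^ K))) := by
            refine mul_le_mul_of_nonneg_left (hmul.trans ?_) (by positivity)
            exact mul_le_mul_of_nonneg_left hfs (by positivity)
        _ = 2 ^ (k * K + 1) * δ * (T * V1 y) ^ K := by
            rw [hsplit]
            ring
        _ ≤ 2 ^ (k * K + 1) * δ * X ^ K :=
            mul_le_mul_of_nonneg_left (pow_le_pow_left₀ (by positivity) hTX _) (by positivity)
    -- conclusion
    rw [← hm]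
    have w1 := abs_le.mp hA
    have w2 := abs_le.mp hB
    have w3 : v ^ K * Sg ≤ X ^ K + 1 := by linarith
    have w4 : δ * (v ^ K * Sg) ≤ δ * (X ^ K + 1) := mul_le_mul_of_nonneg_left w3 hδ0.le
    have w5 : 2 ^ (k * K + 1) * δ * X ^ K + δ * (X ^ K + 1) + δ = δ * D := by
      rw [hD]
      ring
    rw [abs_le]
    constructor <;> linarith

end Pool.Agent.K1H65.SQB
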