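import Pool.Agent.K1H73.SQB.Stm3
import Pool.Agent.K1H4.SQB.Err2
import Pool.Agent.Y420.SQ.Tail

set_option autoImplicit false

/-! # Project SQB, part 3: the two error sums with prescribed elements (by helper65; adapted from
`Pool.Agent.K1H4.SQB.t_ERR2`) -/

namespace Pool.Agent.K1H65.SQB

open Finset Filter Pool.Agent.Y862.SQ Pool.Agent.Y61.SQ Pool.Agent.K1H73.SQB Pool.Agent.K1H4.SQB

section generic
variable {α : Type} [DecidableEq α]

/-- sum over the sets containing a given element -/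
theorem gsum_single (k : ℕ) (E : Finset α) (a : α) (F : α → ℝ) (hF : ∀ h, 0 ≤ F h) :
    ∑ H ∈ (powersetCard (k + 1) E).filter (fun H => a ∈ H), ∏ h ∈ H, F h ≤
      F a * (∑ h ∈ E, F h) ^ k := by
  have h1 : ∀ H ∈ (powersetCard (k + 1) E).filter (fun H => a ∈ H),
      ∏ h ∈ H, F h = F a * ∏ h ∈ H.erase a, F h := by
    intro H hH
    rw [mem_filter] at hH
    rw [← mul_prod_erase H F hH.2]
  rw [sum_congr rfl h1, ← mul_sum]
  refine mul_le_mul_of_nonneg_left ?_ (hF a)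
  have hinj : Set.InjOn (fun H : Finset α => H.erase a)
      ((powersetCard (k + 1) E).filter (fun H => a ∈ H)) := by
    intro H hH H' hH' h
    rw [mem_coe, mem_filter] at hH hH'
    simp only at h
    rw [← insert_erase hH.2, ← insert_erase hH'.2, h]
  have h2 : ∑ H ∈ (powersetCard (k + 1) E).filter (fun H => a ∈ H),
      ∏ h ∈ H.erase a, F h ≤ ∑ H ∈ powersetCard k E, ∏ h ∈ H, F h := by
    rw [← sum_image (f := fun H => ∏ h ∈ H, F h) hinj]
    refine sum_le_sum_of_subset_of_nonneg ?_ (fun H _ _ => prod_nonneg fun h _ => hF h)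
    intro H hH
    rw [mem_image] at hH
    obtain ⟨H', hH', rfl⟩ := hH
    rw [mem_filter, mem_powersetCard] at hH'
    obtain ⟨⟨h1, h2⟩, h3⟩ := hH'
    rw [mem_powersetCard]
    refine ⟨(erase_subset _ _).trans h1, ?_⟩
    rw [card_erase_of_mem h3, h2]
    omega
  refine h2.trans ((Pool.Agent.H986R2.KSat.esymm_le E F (fun h _ => hF h) k).trans ?_)
  have h3 : (0 : ℝ) ≤ (∑ h ∈ E, F h) ^ k := pow_nonneg (sum_nonneg fun h _ => hF h) k
  exact div_le_self h3 (by exact_mod_cast Nat.one_le_iff_ne_zero.2 (Nat.factorial_ne_zero k))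

theorem gsum_one (k : ℕ) (E : Finset α) (F g : α → ℝ) (hF : ∀ h, 0 ≤ F h) (hg : ∀ h, 0 ≤ g h) :
    ∑ H ∈ powersetCard (k + 1) E, (∏ h ∈ H, F h) * ∑ b ∈ H, g b ≤
      (∑ h ∈ E, F h) ^ k * ∑ b ∈ E, g b * F b := by
  have h1 : ∀ H ∈ powersetCard (k + 1) E,
      (∏ h ∈ H, F h) * ∑ b ∈ H, g b = ∑ b ∈ E, if b ∈ H then g b * ∏ h ∈ H, F h else 0 := by
    intro H hH
    rw [mem_powersetCard] at hH
    rw [← Finset.sum_filter, mul_sum]
    apply Finset.sum_congr _ (fun _ _ => mul_comm _ _)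
    ext b
    rw [mem_filter]
    exact ⟨fun h => ⟨hH.1 h, h⟩, fun h => h.2⟩
  rw [sum_congr rfl h1, sum_comm, mul_sum]
  refine sum_le_sum fun b _ => ?_
  rw [← sum_filter, ← mul_sum]
  have h3 := mul_le_mul_of_nonneg_left (gsum_single k E b F hF) (hg b)
  exact h3.trans (le_of_eq (by ring))

/-- pairs in a union -/
theorem gpairs (P H : Finset α) (d : α → α → ℝ) (hd : ∀ a b, 0 ≤ d a b) (hd0 : ∀ a, d a a = 0)
    (hsym : ∀ a b, d a b = d b a) :
    ∑ x ∈ ((P ∪ H) ×ˢ (P ∪ H)).filter (fun x => x.1 ≠ x.2), d x.1 x.2 ≤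
      ∑ x ∈ (P ×ˢ P).filter (fun x => x.1 ≠ x.2), d x.1 x.2 +
      ∑ x ∈ (H ×ˢ H).filter (fun x => x.1 ≠ x.2), d x.1 x.2 + 2 * ∑ z ∈ P, ∑ z' ∈ H, d z z' := by
  have e : ∀ S : Finset α, ∑ x ∈ (S ×ˢ S).filter (fun x => x.1 ≠ x.2), d x.1 x.2 =
      ∑ a ∈ S, ∑ b ∈ S, d a b := by
    intro S
    rw [sum_filter, sum_product]
    refine sum_congr rfl fun a _ => sum_congr rfl fun b _ => ?_
    by_cases h : a = b
    · subst h; simp [hd0]
    · rw [if_pos h]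
  rw [e, e, e]
  have u : ∀ f : α → ℝ, (∀ a, 0 ≤ f a) → ∑ a ∈ P ∪ H, f a ≤ ∑ a ∈ P, f a + ∑ a ∈ H, f a := by
    intro f hf
    have := sum_union_inter (s₁ := P) (s₂ := H) (f := f)
    have h2 : 0 ≤ ∑ a ∈ P ∩ H, f a := sum_nonneg fun a _ => hf a
    linarith
  have h1 := u (fun a => ∑ b ∈ P ∪ H, d a b) (fun a => sum_nonneg fun b _ => hd a b)
  have h2 : ∀ a, ∑ b ∈ P ∪ H, d a b ≤ ∑ b ∈ P, d a b + ∑ b ∈ H, d a b := fun a => u _ (hd a)
  have h3 : ∑ a ∈ P, ∑ b ∈ P ∪ H, d a b ≤ ∑ a ∈ P, ∑ b ∈ P, d a b + ∑ a ∈ P, ∑ b ∈ H, d a b := by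
    rw [← sum_add_distrib]
    exact sum_le_sum fun a _ => h2 a
  have h4 : ∑ a ∈ H, ∑ b ∈ P ∪ H, d a b ≤ ∑ a ∈ H, ∑ b ∈ P, d a b + ∑ a ∈ H, ∑ b ∈ H, d a b := by
    rw [← sum_add_distrib]
    exact sum_le_sum fun a _ => h2 a
  have h5 : ∑ a ∈ H, ∑ b ∈ P, d a b = ∑ a ∈ P, ∑ b ∈ H, d a b := by
    rw [sum_comm]
    exact sum_congr rfl fun a _ => sum_congr rfl fun b _ => hsym b a
  linarith

end generic

lemma Dd_self (K w : ℕ) (z : ℕ × ℕ) : Dd K w (Rn z z) - 1 = 0 := by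
  have : Rn z z = 0 := by
    unfold Rn
    simp [Nat.dist_self]
  rw [this]
  unfold Dd
  simp

lemma Dd_small (K w t : ℕ) (h : t < w) : Dd K w t = 1 := by
  unfold Dd
  rw [Finset.filter_false_of_mem, prod_empty]
  intro p hp
  have := Nat.le_of_mem_primeFactors hp
  omega

set_option maxHeartbeats 4000000 in
theorem t_ERR3 (hM : S_MERT) (h1 : S_FM) (h2 : S_COLL2) (h3 : S_VPL) : S_ERR3 := by
  intro P hadm K J w1 δ hK1 hδ hPJ
  obtain ⟨k, hK⟩ : ∃ k : ℕ, K = k + 1 := ⟨K - 1, by omega⟩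
  obtain ⟨c, hc0, hc1, hc⟩ := V1_low hM
  obtain ⟨w0, hFM⟩ := h1
  obtain ⟨K', hK'⟩ : ∃ K' : ℕ, K' = (1 + 4 * (K + P.card)) ^ ((K + P.card) ^ 2) - 1 := ⟨_, rfl⟩
  rw [← hK']
  obtain ⟨C, hC0, hC⟩ := h2 K' J
  obtain ⟨C', hC'0, hC'⟩ := h2 ((1 + K') ^ 2 - 1) J
  obtain ⟨c3, hc30, hc3⟩ := h3 P hadm
  obtain ⟨R, hR⟩ : ∃ R : ℝ, R = C' + 1 := ⟨_, rfl⟩
  have hRC : C' ≤ R ^ 2 := by rw [hR]; nlinarith
  have hR0 : 0 < R := by rw [hR]; linarith
  have hJ1 : (1 : ℝ) ≤ ((J + 1 : ℕ) : ℝ) := by exact_mod_cast (by omega : 1 ≤ J + 1)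
  obtain ⟨j, hj⟩ : ∃ j : ℝ, j = ((J + 1 : ℕ) : ℝ) ^ K := ⟨_, rfl⟩
  have hj1 : 1 ≤ j := by rw [hj]; exact one_le_pow₀ hJ1
  have hj0 : 0 < j := by linarith
  obtain ⟨B, hB⟩ : ∃ B : ℝ, B = 2 ^ K * C + (P.card : ℝ) * 2 ^ (K + 1) * R := ⟨_, rfl⟩
  have hB0 : 0 ≤ B := by rw [hB]; positivity
  obtain ⟨A, hA⟩ : ∃ A : ℝ, A = 4 * ((K + P.card : ℕ) : ℝ) ^ 2 + j * 2 ^ K + j * B := ⟨_, rfl⟩
  have hA0 : 0 ≤ A := by rw [hA]; positivity
  obtain ⟨δ', hδ'⟩ : ∃ δ' : ℝ, δ' = min (δ / 2) (δ / 2 * c3) := ⟨_, rfl⟩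
  have hδ'0 : 0 < δ' := by rw [hδ']; exact lt_min (by positivity) (by positivity)
  have hδ'1 : δ' ≤ δ / 2 := by rw [hδ']; exact min_le_left _ _
  have hδ'2 : δ' ≤ δ / 2 * c3 := by rw [hδ']; exact min_le_right _ _
  obtain ⟨w, hw0, hw3, hwA⟩ := exists_w A hA0 (K + 4 * P.card) c δ' hc0 hδ'0
    (max (max w0 (4 * (K + P.card) + 2)) (max w1 (1 + ∑ x ∈ prs2 P, Rn x.1 x.2)))
  have hww0 : w0 ≤ w := (le_max_left _ _).trans ((le_max_left _ _).trans hw0)
  have hwK : 4 * (K + P.card) + 2 ≤ w := (le_max_right _ _).trans ((le_max_left _ _).trans hw0)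
  have hww1 : w1 ≤ w := (le_max_left _ _).trans ((le_max_right _ _).trans hw0)
  have hwR : 1 + ∑ x ∈ prs2 P, Rn x.1 x.2 ≤ w :=
    (le_max_right _ _).trans ((le_max_right _ _).trans hw0)
  have hwR' : ∀ x ∈ prs2 P, Rn x.1 x.2 < w := by
    intro x hx
    have := single_le_sum (f := fun x : (ℕ × ℕ) × (ℕ × ℕ) => Rn x.1 x.2)
      (fun _ _ => Nat.zero_le _) hx
    omega
  have hw1 : (1 : ℝ) ≤ w := by exact_mod_cast (by omega : 1 ≤ w)
  have hwpos : (0 : ℝ) < w := by linarith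
  -- the small quantity
  obtain ⟨x, hx⟩ : ∃ x : ℝ, x = (√(√(w : ℝ)))⁻¹ := ⟨_, rfl⟩
  have hss : 1 ≤ √(√(w : ℝ)) := by
    rw [Real.one_le_sqrt, Real.one_le_sqrt]
    exact hw1
  have hx0 : 0 < x := by rw [hx]; positivity
  have hx1 : x ≤ 1 := by rw [hx]; exact inv_le_one_of_one_le₀ hss
  have hx2 : x ^ 2 = (√(w : ℝ))⁻¹ := by
    rw [hx, inv_pow, Real.sq_sqrt (Real.sqrt_nonneg _)]
  have hx4 : (w : ℝ)⁻¹ = x ^ 4 := by
    have : x ^ 4 = (x ^ 2) ^ 2 := by ring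
    rw [this, hx2, inv_pow, Real.sq_sqrt hwpos.le]
  have hxw : (w : ℝ)⁻¹ ≤ x := by
    rw [hx4]
    calc x ^ 4 ≤ x ^ 1 := pow_le_pow_of_le_one hx0.le hx1 (by norm_num)
      _ = x := pow_one x
  rw [← hx] at hwA
  have hlog1 : 1 ≤ Real.log w := by
    rw [Real.le_log_iff_exp_le hwpos]
    have : (3 : ℝ) ≤ w := by exact_mod_cast hw3
    linarith [Real.exp_one_lt_d9]
  obtain ⟨V, hV⟩ : ∃ V : ℝ, V = V1 w := ⟨_, rfl⟩
  have hVpos : 0 < V := by rw [hV]; exact V1_pos w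
  have hcV : (c / Real.log w) ^ (K + 4 * P.card) ≤ V ^ (K + 4 * P.card) := by
    rw [hV]
    exact pow_le_pow_left₀ (by positivity) (hc w hw3) _
  have hc1' : (c / Real.log w) ^ (K + 4 * P.card) ≤ 1 := by
    apply pow_le_one₀ (by positivity)
    rw [div_le_one (by linarith)]
    linarith
  obtain ⟨Q, hQ⟩ : ∃ Q : ℝ, Q = VP P w * V ^ K := ⟨_, rfl⟩
  have hVP : c3 * V ^ (4 * P.card) ≤ VP P w := by rw [hV]; exact hc3 w
  have hQ1 : c3 * V ^ (K + 4 * P.card) ≤ Q := by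
    rw [hQ, pow_add]
    calc c3 * (V ^ K * V ^ (4 * P.card)) = (c3 * V ^ (4 * P.card)) * V ^ K := by ring
      _ ≤ _ := mul_le_mul_of_nonneg_right hVP (by positivity)
  have hQ0 : 0 < Q := lt_of_lt_of_le (by positivity) hQ1
  have hAQ : A * x ≤ δ / 2 * Q := by
    calc A * x ≤ δ' * (c / Real.log w) ^ (K + 4 * P.card) := hwA
      _ ≤ (δ / 2 * c3) * V ^ (K + 4 * P.card) := by gcongr
      _ = δ / 2 * (c3 * V ^ (K + 4 * P.card)) := by ring
      _ ≤ δ / 2 * Q := by gcongr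
  have hA1 : A * x ≤ δ / 2 :=
    (hwA.trans (mul_le_of_le_one_right hδ'0.le hc1')).trans hδ'1
  have i1 : 4 * ((K + P.card : ℕ) : ℝ) ^ 2 / w ≤ δ := by
    calc 4 * ((K + P.card : ℕ) : ℝ) ^ 2 / w = 4 * ((K + P.card : ℕ) : ℝ) ^ 2 * (w : ℝ)⁻¹ :=
          div_eq_mul_inv _ _
      _ ≤ A * x := by
          apply mul_le_mul _ hxw (by positivity) hA0
          rw [hA]
          have : (0 : ℝ) ≤ j * 2 ^ K + j * B := by positivity
          linarith
      _ ≤ δ := by linarith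
  have i2 : j * 2 ^ K * x ≤ δ / 2 * Q := by
    refine le_trans (mul_le_mul_of_nonneg_right ?_ hx0.le) hAQ
    rw [hA]
    have : (0 : ℝ) ≤ 4 * ((K + P.card : ℕ) : ℝ) ^ 2 + j * B := by positivity
    linarith
  have i3 : j * B * x ≤ δ / 2 * Q := by
    refine le_trans (mul_le_mul_of_nonneg_right ?_ hx0.le) hAQ
    rw [hA]
    have : (0 : ℝ) ≤ 4 * ((K + P.card : ℕ) : ℝ) ^ 2 + j * 2 ^ K := by positivity
    linarith
  obtain ⟨T1, hT1⟩ := hFM w hww0
  obtain ⟨T2, hT2⟩ := hC w (by omega)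
  obtain ⟨T4, hT4⟩ := hC' w (by omega)
  obtain ⟨T3, hT3⟩ := exists_nat_ge (j * (K : ℝ) ^ 2 / (δ / 2 * Q))
  refine ⟨w, T1 + T2 + T3 + T4 + K + 1 + ∑ z ∈ P, z.2, hww1, hwK, i1, hwR', ?_⟩
  intro T hT y hy
  obtain ⟨N, hN⟩ : ∃ N : ℕ, N = (J + 1) * T := ⟨_, rfl⟩
  have hNT : T ≤ N := by rw [hN]; exact Nat.le_mul_of_pos_left _ (by omega)
  have hNr : (N : ℝ) = ((J + 1 : ℕ) : ℝ) * T := by rw [hN, Nat.cast_mul]
  have hTpos : (0 : ℝ) < T := by exact_mod_cast (by omega : 0 < T)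
  have hNpos : (0 : ℝ) < N := by exact_mod_cast (by omega : 0 < N)
  have hTN : (T : ℝ) ≤ N := by exact_mod_cast hNT
  have hNK : (N : ℝ) ^ K = j * (T : ℝ) ^ K := by rw [hNr, mul_pow, hj]
  have hFM' := hT1 T (by omega) y
  have hcard : (EE J T).card = N := by rw [card_EE, hN]
  obtain ⟨F, hF⟩ : ∃ F : ℕ × ℕ → ℝ, F = fun z => Ff w y z.2 := ⟨_, rfl⟩
  have hF0 : ∀ h, 0 ≤ F h := by intro h; rw [hF]; exact Ff_nonneg w y h.2
  have hFM2 : ∑ h ∈ EE J T, (F h - 1) ^ 2 ≤ N * x ^ 2 := by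
    rw [hF]
    have e := sum_EE J T (fun h => (Ff w y h - 1) ^ 2)
    rw [e, hNr, mul_assoc]
    refine mul_le_mul_of_nonneg_left ?_ (by positivity)
    rw [hx2, ← div_eq_mul_inv]
    exact hFM'
  have hG : ∑ h ∈ EE J T, |F h - 1| ≤ N * x := by
    apply le_of_sq_le_sq _ (by positivity)
    have e1 := sq_sum_le_card_mul_sum_sq (s := EE J T) (f := fun h => |F h - 1|)
    simp only [sq_abs] at e1
    rw [hcard] at e1
    calc _ ≤ (N : ℝ) * ∑ h ∈ EE J T, (F h - 1) ^ 2 := e1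
      _ ≤ N * (N * x ^ 2) := by gcongr
      _ = _ := by ring
  have hTT : (N : ℝ) * x ≤ N := mul_le_of_le_one_right hNpos.le hx1
  have hS : ∑ h ∈ EE J T, F h ≤ 2 * N := by
    have e1 : ∑ h ∈ EE J T, F h ≤ ∑ h ∈ EE J T, (|F h - 1| + 1) :=
      sum_le_sum fun h _ => by linarith [le_abs_self (F h - 1)]
    rw [sum_add_distrib] at e1
    simp only [sum_const, hcard, nsmul_eq_mul, mul_one] at e1
    linarith
  have hS2 : ∑ h ∈ EE J T, F h ^ 2 ≤ 4 * N := by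
    have e1 : ∑ h ∈ EE J T, F h ^ 2 ≤ ∑ h ∈ EE J T, (2 * (F h - 1) ^ 2 + 2) :=
      sum_le_sum fun h _ => sq_le_two (F h)
    rw [sum_add_distrib, ← mul_sum] at e1
    simp only [sum_const, hcard, nsmul_eq_mul] at e1
    have : (N : ℝ) * x ^ 2 ≤ N := mul_le_of_le_one_right hNpos.le (pow_le_one₀ hx0.le hx1)
    linarith
  have hS0 : 0 ≤ ∑ h ∈ EE J T, F h := sum_nonneg fun t _ => hF0 t
  have hfin : δ * (VP P w * (T * V1 w) ^ K) = (T : ℝ) ^ K * (δ * Q) := by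
    rw [hQ, ← hV, mul_pow]
    ring
  rw [hfin]
  have hfac : (1 : ℝ) ≤ K.factorial := by exact_mod_cast Nat.succ_le_of_lt K.factorial_pos
  obtain ⟨d, hd⟩ : ∃ d : ℕ × ℕ → ℕ × ℕ → ℝ,
    d = fun z z' => Dd K' w (Rn z z') - 1 := ⟨_, rfl⟩
  have hd0 : ∀ z z', 0 ≤ d z z' := by
    intro z z'
    rw [hd]
    exact Pool.Agent.Y61.SQ.Dd_ge _ _ _
  have hdd : ∀ z, d z z = 0 := by intro z; rw [hd]; exact Dd_self K' w z
  have hdsym : ∀ z z', d z z' = d z' z := by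
    intro z z'
    rw [hd]
    show _ - _ = _ - _
    rw [Rn_comm]
  have hds : ∀ z ∈ EE J T, ∑ z' ∈ (EE J T).filter (fun z' => z' ≠ z), d z z' ≤ C * N / w := by
    intro z hz
    rw [hd]
    refine (hT2 T (by omega) z hz).trans ?_
    gcongr
  have hCN : 0 ≤ C * N / w := by positivity
  constructor
  · have e0 := gerr_one K (EE J T) N hcard (by omega) (by omega) F x hx0.le hx1 hG
    have e1 : (N : ℝ) ^ K / K.factorial * (2 ^ K * x + (K : ℝ) ^ 2 / N) ≤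
        (N : ℝ) ^ K * (2 ^ K * x + (K : ℝ) ^ 2 / N) :=
      mul_le_mul_of_nonneg_right (div_le_self (by positivity) hfac) (by positivity)
    have e2 : j * ((K : ℝ) ^ 2 / N) ≤ δ / 2 * Q := by
      have e2 : (T3 : ℝ) ≤ N := by exact_mod_cast (by omega : T3 ≤ N)
      have e3 := hT3.trans e2
      rw [div_le_iff₀ (by positivity)] at e3
      rw [← mul_div_assoc, div_le_iff₀ hNpos]
      linarith
    have e3 : (N : ℝ) ^ K * (2 ^ K * x + (K : ℝ) ^ 2 / N) ≤ (T : ℝ) ^ K * (δ * Q) := by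
      rw [hNK]
      calc j * (T : ℝ) ^ K * (2 ^ K * x + (K : ℝ) ^ 2 / N) =
            (T : ℝ) ^ K * (j * 2 ^ K * x + j * ((K : ℝ) ^ 2 / N)) := by ring
        _ ≤ (T : ℝ) ^ K * (δ / 2 * Q + δ / 2 * Q) := by gcongr
        _ = _ := by ring
    rw [hF] at e0
    exact e0.trans (e1.trans e3)
  · -- the pairs in H
    have hS2le : ∑ H ∈ powersetCard K (EE J T), (∏ h ∈ H, F h) * ∑ z ∈ prs2 H, d z.1 z.2 ≤
        (N : ℝ) ^ K * (2 ^ K * C / w) := by
      rcases k with _ | k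
      · rw [hK]
        unfold prs2
        rw [gerr_two_one]
        positivity
      · have hK' : K = k + 2 := by omega
        rw [hK']
        unfold prs2
        refine (gerr_two k (EE J T) F d (C * N / w) hF0 hd0 hdsym hds).trans ?_
        calc _ ≤ (2 * (N : ℝ)) ^ k * ((4 * N) * (C * N / w)) := by
              refine mul_le_mul (pow_le_pow_left₀ (sum_nonneg fun t _ => hF0 t) hS k)
                (mul_le_mul hS2 le_rfl hCN (by positivity))
                (mul_nonneg (sum_nonneg fun t _ => sq_nonneg _) hCN)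
                (by positivity)
          _ = _ := by ring
    -- the pairs with one element in P
    have hdF : ∀ z ∈ P, ∑ z' ∈ EE J T, d z z' * F z' ≤ 2 * R * N * x := by
      intro z hz
      have hzE : z ∈ EE J T := by
        unfold EE
        rw [mem_product, mem_range, mem_Icc]
        have e1 := hPJ z hz
        have e2 := single_le_sum (f := fun z : ℕ × ℕ => z.2) (fun _ _ => Nat.zero_le _) hz
        exact ⟨by omega, e1.2, by omega⟩
      have e3 : ∑ z' ∈ EE J T, d z z' ^ 2 ≤ C' * T / w := by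
        refine le_trans ?_ (hT4 T (by omega) z hzE)
        have e4 : ∑ z' ∈ EE J T, d z z' ^ 2 =
            ∑ z' ∈ (EE J T).filter (fun z' => z' ≠ z), d z z' ^ 2 := by
          rw [sum_filter]
          refine sum_congr rfl fun z' _ => ?_
          by_cases h : z' = z
          · subst h
            rw [if_neg (by simp), hdd]
            norm_num
          · rw [if_pos h]
        rw [e4]
        refine sum_le_sum fun z' _ => ?_
        have e5 := Pool.Agent.Y420.SQ.Dd_pow K' 2 w (Rn z z')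
        have e6 := Pool.Agent.Y420.SQ.Dd_ge K' w (Rn z z')
        rw [hd]
        simp only
        nlinarith
      have e7 := sum_mul_sq_le_sq_mul_sq (EE J T) (fun z' => d z z') F
      apply le_of_sq_le_sq _ (by positivity)
      refine e7.trans ?_
      have e8 : (C' : ℝ) * T / w ≤ R ^ 2 * N * x ^ 2 := by
        rw [div_eq_mul_inv, hx4]
        have e9 : x ^ 4 ≤ x ^ 2 := pow_le_pow_of_le_one hx0.le hx1 (by norm_num)
        gcongr
      calc (∑ z' ∈ EE J T, d z z' ^ 2) * ∑ z' ∈ EE J T, F z' ^ 2 ≤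
            (R ^ 2 * N * x ^ 2) * (4 * N) := by
              refine mul_le_mul (e3.trans e8) hS2 (sum_nonneg fun t _ => sq_nonneg _)
                (by positivity)
        _ = _ := by ring
    have hPH : ∀ z ∈ P, ∑ H ∈ powersetCard K (EE J T), (∏ h ∈ H, F h) * ∑ z' ∈ H, d z z' ≤
        (2 * (N : ℝ)) ^ k * (2 * R * N * x) := by
      intro z hz
      rw [hK]
      refine (gsum_one k (EE J T) F (fun z' => d z z') hF0 (hd0 z)).trans ?_
      refine mul_le_mul (pow_le_pow_left₀ hS0 hS k) (hdF z hz)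
        (sum_nonneg fun t _ => mul_nonneg (hd0 _ _) (hF0 _)) (by positivity)
    -- the pairs in P
    have hPP : ∑ x ∈ prs2 P, d x.1 x.2 = 0 := by
      refine sum_eq_zero fun x hx => ?_
      rw [hd]
      simp only
      rw [Dd_small K' w _ (hwR' x hx), sub_self]
    have hall : ∑ H ∈ (powersetCard K (EE J T)).filter (fun H => Disjoint P H), (∏ z ∈ H, F z) *
        ∑ x ∈ prs2 (P ∪ H), d x.1 x.2 ≤
        ∑ H ∈ powersetCard K (EE J T), (∏ h ∈ H, F h) * ∑ z ∈ prs2 H, d z.1 z.2 +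
        2 * ∑ z ∈ P, ∑ H ∈ powersetCard K (EE J T), (∏ h ∈ H, F h) * ∑ z' ∈ H, d z z' := by
      calc _ ≤ ∑ H ∈ powersetCard K (EE J T), (∏ z ∈ H, F z) * ∑ x ∈ prs2 (P ∪ H), d x.1 x.2 :=
            sum_le_sum_of_subset_of_nonneg (filter_subset _ _) fun H _ _ =>
              mul_nonneg (prod_nonneg fun h _ => hF0 h) (sum_nonneg fun x _ => hd0 _ _)
        _ ≤ ∑ H ∈ powersetCard K (EE J T), ((∏ h ∈ H, F h) * ∑ z ∈ prs2 H, d z.1 z.2 +
              2 * ∑ z ∈ P, (∏ h ∈ H, F h) * ∑ z' ∈ H, d z z') := by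
            refine sum_le_sum fun H _ => ?_
            have e1 := gpairs P H d hd0 hdd hdsym
            have e2 : 0 ≤ ∏ h ∈ H, F h := prod_nonneg fun h _ => hF0 h
            unfold prs2 at hPP ⊢
            rw [hPP, zero_add] at e1
            have e3 := mul_le_mul_of_nonneg_left e1 e2
            refine e3.trans (le_of_eq ?_)
            rw [mul_add, ← mul_sum]
            ring
        _ = _ := by
            rw [sum_add_distrib, ← mul_sum, sum_comm]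
    have hsum : ∑ z ∈ P, ∑ H ∈ powersetCard K (EE J T), (∏ h ∈ H, F h) * ∑ z' ∈ H, d z z' ≤
        (P.card : ℝ) * ((2 * (N : ℝ)) ^ k * (2 * R * N * x)) := by
      have e1 := sum_le_card_nsmul P _ _ hPH
      rw [nsmul_eq_mul] at e1
      exact e1
    have hfinal : ∑ H ∈ (powersetCard K (EE J T)).filter (fun H => Disjoint P H), (∏ z ∈ H, F z) *
        ∑ x ∈ prs2 (P ∪ H), d x.1 x.2 ≤ (T : ℝ) ^ K * (δ * Q) := by
      refine hall.trans ?_
      have e1 : (N : ℝ) ^ K * (2 ^ K * C / w) ≤ (N : ℝ) ^ K * (2 ^ K * C * x) := by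
        rw [div_eq_mul_inv]
        gcongr
      have e2 : 2 * ((P.card : ℝ) * ((2 * (N : ℝ)) ^ k * (2 * R * N * x))) =
          (N : ℝ) ^ K * ((P.card : ℝ) * 2 ^ (K + 1) * R * x) := by
        rw [hK]
        ring
      calc _ ≤ (N : ℝ) ^ K * (2 ^ K * C / w) +
            2 * ((P.card : ℝ) * ((2 * (N : ℝ)) ^ k * (2 * R * N * x))) :=
              add_le_add hS2le (mul_le_mul_of_nonneg_left hsum (by norm_num))
        _ ≤ (N : ℝ) ^ K * (2 ^ K * C * x) + (N : ℝ) ^ K * ((P.card : ℝ) * 2 ^ (K + 1) * R * x) :=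
              add_le_add e1 e2.le
        _ = (T : ℝ) ^ K * (j * B * x) := by
              rw [hNK, hB]
              ring
        _ ≤ (T : ℝ) ^ K * (δ / 2 * Q) := by gcongr
        _ ≤ (T : ℝ) ^ K * (δ * Q) := by
              gcongr
              linarith
    rw [hF, hd] at hfinal
    exact hfinal

end Pool.Agent.K1H65.SQB
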